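import Mathlib

/-! # Finite graphs with even degrees decompose into cycles (helper150) -/

set_option autoImplicit false

open scoped Classical

namespace Pool.Agent.W150.OC

open SimpleGraph

variable {V : Type} [Fintype V]

/-- an acyclic graph with an edge has a leaf -/
theorem leaf {H : SimpleGraph V} (h : H.IsAcyclic) {a b : V} (hab : H.Adj a b) :
    ∃ u, H.degree u = 1 := by
  have : Nonempty V := ⟨a⟩
  obtain ⟨u, v, p, hp, hmax⟩ := Walk.exists_isPath_forall_isPath_length_le_length H
  have hnil : ¬ p.Nil := by
    intro hn
    have h1 := hmax a b (Walk.cons hab Walk.nil) (by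
      rw [Walk.cons_isPath_iff]
      exact ⟨Walk.IsPath.nil, by simp [hab.ne]⟩)
    rw [Walk.length_eq_zero_iff.2 hn] at h1
    simp at h1
  refine ⟨u, ?_⟩
  rw [degree_eq_one_iff_existsUnique_adj]
  refine ⟨_, p.adj_snd hnil, fun w hadj ↦ ?_⟩
  apply h.eq_snd_of_adj_start hp hadj
  have hnp : ¬ (p.cons hadj.symm).IsPath := by
    intro h1
    have := hmax _ _ _ h1
    rw [Walk.length_cons] at this
    omega
  rw [Walk.cons_isPath_iff] at hnp
  by_contra hcon
  exact hnp ⟨hp, hcon⟩

/-- degrees after removing the edges of a cycle -/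
theorem degree_delete {H : SimpleGraph V} {v : V} (c : H.Walk v v) (hc : c.IsCycle)
    (hev : ∀ w, Even ((H.neighborSet w).ncard)) (w : V) :
    Even (((H.deleteEdges {e | e ∈ c.edges}).neighborSet w).ncard) := by
  have h1 : H.neighborSet w = (H.deleteEdges {e | e ∈ c.edges}).neighborSet w ∪ c.toSubgraph.neighborSet w := by
    ext x
    simp only [mem_neighborSet, deleteEdges_adj, Set.mem_ofPred_eq, Set.mem_union, Subgraph.mem_neighborSet]
    constructor
    · intro h
      by_cases h2 : s(w, x) ∈ c.edges
      · right
        rw [← Subgraph.mem_edgeSet, Walk.mem_edges_toSubgraph]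
        exact h2
      · left
        exact ⟨h, h2⟩
    · rintro (h | h)
      · exact h.1
      · exact c.toSubgraph.adj_sub h
  have h2 : Disjoint ((H.deleteEdges {e | e ∈ c.edges}).neighborSet w) (c.toSubgraph.neighborSet w) := by
    rw [Set.disjoint_left]
    intro x hx hx2
    rw [mem_neighborSet, deleteEdges_adj] at hx
    apply hx.2
    rw [Subgraph.mem_neighborSet, ← Subgraph.mem_edgeSet, Walk.mem_edges_toSubgraph] at hx2
    exact hx2
  have h3 : (H.neighborSet w).ncard = ((H.deleteEdges {e | e ∈ c.edges}).neighborSet w).ncard +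
      (c.toSubgraph.neighborSet w).ncard := by
    rw [h1]
    exact Set.ncard_union_eq h2 (Set.toFinite _) (Set.toFinite _)
  have h5 : Even ((c.toSubgraph.neighborSet w).ncard) := by
    by_cases h6 : w ∈ c.support
    · rw [hc.ncard_neighborSet_toSubgraph_eq_two h6]
      exact even_two
    · have : c.toSubgraph.neighborSet w = ∅ := by
        ext x
        simp only [Subgraph.mem_neighborSet, Set.mem_empty_iff_false, iff_false]
        intro h7
        apply h6
        have := c.toSubgraph.edge_vert h7
        rwa [Walk.mem_verts_toSubgraph] at this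
      rw [this]
      simp
  have h6 := hev w
  rw [h3, Nat.even_add] at h6
  exact h6.2 h5

theorem decomp : ∀ (n : ℕ) (H : SimpleGraph V), H.edgeSet.ncard = n →
    (∀ v, Even ((H.neighborSet v).ncard)) →
    ∃ L : List (Σ v : V, H.Walk v v), (∀ c ∈ L, c.2.IsCycle) ∧
      ∀ e ∈ H.edgeSet, (L.map fun c => c.2.edges.count e).sum = 1 := by
  intro n
  induction n using Nat.strong_induction_on with
  | _ n ih =>
  intro H hn hev
  by_cases hE : ∃ a b, H.Adj a b
  · obtain ⟨a, b, hab⟩ := hE
    have hcyc : ¬ H.IsAcyclic := by
      intro h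
      obtain ⟨u, hu⟩ := leaf h hab
      have := hev u
      rw [← Nat.card_coe_set_eq, Nat.card_eq_fintype_card, card_neighborSet_eq_degree, hu] at this
      exact Nat.not_even_one this
    unfold IsAcyclic at hcyc
    push Not at hcyc
    obtain ⟨v, c, hc⟩ := hcyc
    set H' := H.deleteEdges {e | e ∈ c.edges} with hH'
    have hle : H' ≤ H := deleteEdges_le _
    have hlt : H'.edgeSet.ncard < n := by
      rw [← hn]
      apply Set.ncard_lt_ncard _ (Set.toFinite _)
      rw [Set.ssubset_iff_of_subset (edgeSet_mono hle)]
      have hne : c.edges ≠ [] := by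
        intro h
        have := hc.three_le_length
        rw [← Walk.length_edges, h] at this
        simp at this
      obtain ⟨e, he⟩ := List.exists_mem_of_ne_nil _ hne
      refine ⟨e, ?_, ?_⟩
      · exact c.edges_subset_edgeSet he
      · rw [hH', edgeSet_deleteEdges]
        exact fun h => h.2 he
    obtain ⟨L, hL1, hL2⟩ := ih _ hlt H' rfl (degree_delete c hc hev)
    refine ⟨⟨v, c⟩ :: L.map (fun d => ⟨d.1, d.2.mapLe hle⟩), ?_, ?_⟩
    · intro d hd
      rw [List.mem_cons] at hd
      rcases hd with rfl | hd
      · exact hc
      · obtain ⟨d', hd', rfl⟩ := List.mem_map.1 hd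
        exact (hL1 d' hd').mapLe hle
    · intro e he
      rw [List.map_cons, List.sum_cons, List.map_map]
      have h1 : ((fun c : Σ v : V, H.Walk v v => c.2.edges.count e) ∘
          fun d : Σ v : V, H'.Walk v v => (⟨d.1, d.2.mapLe hle⟩ : Σ v : V, H.Walk v v)) =
          fun d => d.2.edges.count e := by
        ext d
        simp only [Function.comp_apply, Walk.edges_mapLe_eq_edges]
      rw [h1]
      by_cases hec : e ∈ c.edges
      · have h2 : c.edges.count e = 1 := List.count_eq_one_of_mem hc.isTrail.edges_nodup hec
        have h3 : (L.map fun d => d.2.edges.count e).sum = 0 := by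
          rw [List.sum_eq_zero_iff]
          intro x hx
          obtain ⟨d, _, rfl⟩ := List.mem_map.1 hx
          rw [List.count_eq_zero]
          intro h4
          have h5 := d.2.edges_subset_edgeSet h4
          rw [hH', edgeSet_deleteEdges] at h5
          exact h5.2 hec
        show c.edges.count e + _ = 1
        rw [h2, h3]
      · have h2 : c.edges.count e = 0 := List.count_eq_zero.2 hec
        show c.edges.count e + _ = 1
        rw [h2, zero_add]
        apply hL2
        rw [hH', edgeSet_deleteEdges]
        exact ⟨he, hec⟩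
  · refine ⟨[], by simp, ?_⟩
    intro e he
    exfalso
    apply hE
    induction e using Sym2.ind with
    | _ a b => exact ⟨a, b, he⟩

end Pool.Agent.W150.OC
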